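import Pool.Agent.Helper68.DS.Goals2

set_option autoImplicit false

/-! Packet STAR1 of `Pool.Agent.Helper68.DS.Goals2`. -/

namespace Pool.Agent.Helper56.DS

open MvPolynomial Pool.Agent.Helper68.DS

/-- An invertible matrix taking a nonzero row vector to the last basis vector. -/
theorem exists_matrix (z : Fin 3 → ℂ) (hz : z ≠ 0) :
    ∃ g : Matrix (Fin 3) (Fin 3) ℂ, IsUnit g.det ∧ Matrix.vecMul z g = ![0, 0, 1] := by
  by_cases h2 : z 2 ≠ 0
  · refine ⟨!![1, 0, 0; 0, 1, 0; -(z 0) / z 2, -(z 1) / z 2, 1 / z 2], ?_, ?_⟩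
    · rw [Matrix.det_fin_three, isUnit_iff_ne_zero]
      simp [h2]
    · funext i
      fin_cases i
      · simp [Matrix.vecMul, dotProduct, Fin.sum_univ_three]
        field_simp
        ring
      · simp [Matrix.vecMul, dotProduct, Fin.sum_univ_three]
        field_simp
        ring
      · simp [Matrix.vecMul, dotProduct, Fin.sum_univ_three]
        field_simp
  · push Not at h2
    by_cases h1 : z 1 ≠ 0
    · refine ⟨!![1, 0, 0; -(z 0) / z 1, -(z 2) / z 1, 1 / z 1; 0, 1, 0], ?_, ?_⟩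
      · rw [Matrix.det_fin_three, isUnit_iff_ne_zero]
        simp [h1]
      · funext i
        fin_cases i
        · simp [Matrix.vecMul, dotProduct, Fin.sum_univ_three]
          field_simp
          ring
        · simp [Matrix.vecMul, dotProduct, Fin.sum_univ_three]
          field_simp
          ring
        · simp [Matrix.vecMul, dotProduct, Fin.sum_univ_three]
          field_simp
    · push Not at h1
      have h0 : z 0 ≠ 0 := by
        intro h0
        apply hz
        funext i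
        fin_cases i
        · exact h0
        · exact h1
        · exact h2
      refine ⟨!![-(z 1) / z 0, -(z 2) / z 0, 1 / z 0; 1, 0, 0; 0, 1, 0], ?_, ?_⟩
      · rw [Matrix.det_fin_three, isUnit_iff_ne_zero]
        simp [h0]
      · funext i
        fin_cases i
        · simp [Matrix.vecMul, dotProduct, Fin.sum_univ_three]
          field_simp
          ring
        · simp [Matrix.vecMul, dotProduct, Fin.sum_univ_three]
          field_simp
          ring
        · simp [Matrix.vecMul, dotProduct, Fin.sum_univ_three]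
          field_simp

theorem lf_e0 : lf (![1, 0, 0] : Fin 3 → ℂ) = X 0 := by
  simp [lf, Fin.sum_univ_three]

theorem lf_e1 : lf (![0, 1, 0] : Fin 3 → ℂ) = X 1 := by
  simp [lf, Fin.sum_univ_three]

theorem lf_e2 : lf (![0, 0, 1] : Fin 3 → ℂ) = X 2 := by
  simp [lf, Fin.sum_univ_three]

theorem lf_isHom {n : ℕ} (c : Fin n → ℂ) : (lf c).IsHomogeneous 1 := by
  unfold lf
  apply IsHomogeneous.sum
  intro i _
  have := (isHomogeneous_C (Fin n) (c i)).mul (isHomogeneous_X ℂ i)
  simpa using this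

theorem z0_X0 : z0 (X 0) = X 0 := by simp [z0]

theorem z0_X1 : z0 (X 1) = X 1 := by simp [z0]

theorem z0_X2 : z0 (X 2) = 0 := by simp [z0]

theorem z0_hom {f : MvPolynomial (Fin 3) ℂ} {j : ℕ} (hf : f ∈ HS 3 j) : z0 f ∈ HS 2 j := by
  rw [mem_homogeneousSubmodule] at hf ⊢
  have h : ∀ i : Fin 3, (![X 0, X 1, 0] i : MvPolynomial (Fin 2) ℂ).IsHomogeneous 1 := by
    intro i
    fin_cases i
    · exact isHomogeneous_X ℂ 0
    · exact isHomogeneous_X ℂ 1
    · exact isHomogeneous_zero (Fin 2) ℂ 1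
  have h2 := hf.aeval (![X 0, X 1, 0] : Fin 3 → MvPolynomial (Fin 2) ℂ) h
  rw [one_mul] at h2
  exact h2

theorem STAR1 (h1 : CLOS_stmt) (h2 : TRANS_stmt) (h3 : GRAD_stmt) (h4 : DEGEN_stmt)
    (h5 : DIM_stmt) : STAR1_stmt := by
  intro k hk H hH hdim
  have hne : ¬ HS 3 k ≤ H := by
    intro hle
    have he : H = HS 3 k := le_antisymm hH hle
    have h6 := (h5 2 k).2
    rw [he] at hdim
    have h7 : Module.finrank ℂ ↥(HS 3 k) = (2 + k).choose 2 := h6
    rw [h7, add_comm 2 k] at hdim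
    omega
  obtain ⟨z, hz0, hzk, hcl⟩ := h1 k (by omega) H hH hne
  obtain ⟨g, hg, hzg⟩ := exists_matrix z hz0
  obtain ⟨hlf, hbij, hdeg, hHH⟩ := h2 g hg
  obtain ⟨hfr, hKH⟩ := hHH H
  set H' := H.map (sb g).toLinearMap with hH'
  have hmem : ∀ f, sb g f ∈ H' ↔ f ∈ H := by
    intro f
    constructor
    · intro hf
      rw [hH', Submodule.mem_map] at hf
      obtain ⟨y, hy, hyf⟩ := hf
      have : y = f := hbij.1 hyf
      rw [← this]
      exact hy
    · intro hf
      exact Submodule.mem_map_of_mem (f := (sb g).toLinearMap) hf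
  have hH'le : H' ≤ HS 3 k := by
    intro x hx
    rw [hH', Submodule.mem_map] at hx
    obtain ⟨y, hy, rfl⟩ := hx
    exact (hdeg k y).2 (hH hy)
  have hz2 : sb g (lf z) = X 2 := by
    rw [hlf, hzg, lf_e2]
  -- membership in the leading pieces
  have hJmem : ∀ (j : ℕ) (G : MvPolynomial (Fin 2) ℂ), G ∈ JJ H' k j ↔
      ∃ f, X 2 ^ (k - j) * f ∈ H' ∧ f ∈ HS 3 j ∧ z0 f = G := by
    intro j G
    constructor
    · intro hG
      unfold JJ at hG
      rw [Submodule.mem_map] at hG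
      obtain ⟨f, hf, hfG⟩ := hG
      rw [Submodule.mem_inf, Submodule.mem_comap] at hf
      exact ⟨f, hf.1, hf.2, hfG⟩
    · rintro ⟨f, hf1, hf2, hf3⟩
      unfold JJ
      rw [Submodule.mem_map]
      refine ⟨f, ?_, hf3⟩
      rw [Submodule.mem_inf, Submodule.mem_comap]
      exact ⟨hf1, hf2⟩
  have hJ1 : ∀ j, JJ H' k j ≤ HS 2 j := by
    intro j G hG
    obtain ⟨f, -, hf2, rfl⟩ := (hJmem j G).1 hG
    exact z0_hom hf2
  have hJ0 : JJ H' k 0 = ⊥ := by
    rw [eq_bot_iff]
    intro G hG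
    obtain ⟨f, hf1, hf2, rfl⟩ := (hJmem 0 G).1 hG
    rw [mem_homogeneousSubmodule, ← totalDegree_zero_iff_isHomogeneous,
      totalDegree_eq_zero_iff_eq_C] at hf2
    rw [Submodule.mem_bot]
    set γ := coeff 0 f with hγ
    have hγ0 : γ = 0 := by
      by_contra hne0
      apply hzk
      have e1 : sb g (γ • lf z ^ k) = X 2 ^ (k - 0) * f := by
        rw [map_smul, map_pow, hz2, Nat.sub_zero, hf2, smul_eq_C_mul, mul_comm]
      rw [← e1, hmem] at hf1
      have := H.smul_mem γ⁻¹ hf1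
      rwa [smul_smul, inv_mul_cancel₀ hne0, one_smul] at this
    rw [hf2, hγ0, C_0, map_zero]
  have hstep : ∀ (v : Fin 3 → ℂ), ∀ j < k, ∀ G ∈ JJ H' k j,
      z0 (lf v) * G ∈ JJ H' k (j + 1) := by
    intro v j hj G hG
    obtain ⟨g1', hf1, hf2, rfl⟩ := (hJmem j G).1 hG
    obtain ⟨g1, rfl⟩ := hbij.2 g1'
    have hg1 : g1 ∈ HS 3 j := (hdeg j g1).1 hf2
    have hin : lf z ^ (k - j) * g1 ∈ H := by
      rw [← hmem, map_mul, map_pow, hz2]
      exact hf1
    obtain ⟨g', hg', hg2⟩ := hcl j hj g1 hg1 hin (Matrix.vecMul v g⁻¹)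
    have hv : sb g (lf (Matrix.vecMul v g⁻¹)) = lf v := by
      rw [hlf, Matrix.vecMul_vecMul, Matrix.nonsing_inv_mul g hg, Matrix.vecMul_one]
    rw [hJmem]
    refine ⟨lf v * sb g g1 - X 2 * sb g g', ?_, ?_, ?_⟩
    · rw [← hmem] at hg2
      rw [map_mul, map_pow, map_sub, map_mul, map_mul, hz2, hv] at hg2
      have e : k - (j + 1) = k - j - 1 := by omega
      rw [e]
      exact hg2
    · have a1 : (lf v * sb g g1).IsHomogeneous (1 + j) := (lf_isHom v).mul hf2
      have a2 : (X 2 * sb g g').IsHomogeneous (1 + j) :=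
        (isHomogeneous_X ℂ (2 : Fin 3)).mul ((hdeg j g').2 hg')
      have a3 := a1.sub a2
      rw [add_comm 1 j] at a3
      exact a3
    · rw [map_sub, map_mul, map_mul, z0_X2, zero_mul, sub_zero]
  have hstep2 : ∀ j < k, ∀ G ∈ JJ H' k j, X 0 * G ∈ JJ H' k (j + 1) ∧
      X 1 * G ∈ JJ H' k (j + 1) := by
    intro j hj G hG
    have b0 := hstep ![1, 0, 0] j hj G hG
    have b1 := hstep ![0, 1, 0] j hj G hG
    rw [lf_e0, z0_X0] at b0
    rw [lf_e1, z0_X1] at b1
    exact ⟨b0, b1⟩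
  obtain ⟨hsum, hdeg2⟩ := h4 k H' hH'le
  obtain ⟨lam, hlam⟩ := h3 k hk (JJ H' k) hJ1 hJ0 hstep2 (by rw [hsum, hfr]; exact hdim)
  obtain ⟨lam', hlam'⟩ := hdeg2 k (k - 1) lam hlam
  exact hKH k (k - 1) lam' hlam'

end Pool.Agent.Helper56.DS
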